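import Pool.Agent.Helper20.HT.Main

/-!
# MP_96c46d_lc: a computable instance of thin-HT without Σ⁰₃ solutions

There is a primitive recursive colouring `c : ℕ → ℕ` such that for every infinite set `S`, every
`Σ⁰₃` subset of `S` with sufficiently many different leading binary digits (the bound is an explicit
function of the index of the subset and of the colour `i`) produces the colour `i` on the finite
sums of `S`.  In particular all colours occur on the finite sums of an infinite `Σ⁰₃` set.

The colour of `s = 2 ^ a₁ + ⋯ + 2 ^ aₖ` (`a₁ < ⋯ < aₖ`) is the number of trailing zeros of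
`∑ g (aⱼ, aⱼ₊₁; aₖ)`.  The requirement `(e, i)` guesses, at stage `(Y, b)`, the least list of
elements of `U e` with many leading digits; `Y` is the last digit of a tail and `b` its leading
digit.  The values `g (x, Y; b)` are chosen in such a way that the sums `w + t`, `w` in the list,
run through all residues modulo `2 ^ (i + 1)`.
-/

namespace Pool.Agent.Results.MP_96c46d_lc.NoSigmaThreeSolution

open Pool.Agent.Helper20.HT

/-- The `e`-th `Σ⁰₃` set: `x` belongs to it if for some `a` and all `b` the partial recursive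
function with number `e` is defined at `⟨x, ⟨a, b⟩⟩`. -/
def U (e : ℕ) : Set ℕ :=
  {x | ∃ a, ∀ b, (Nat.Partrec.Code.eval (Denumerable.ofNat Nat.Partrec.Code e)
    (Nat.pair x (Nat.pair a b))).Dom}

theorem conf_iff (e x a b : ℕ) : (∃ t, conf t e x a b = true) ↔
    (Nat.Partrec.Code.eval (Denumerable.ofNat Nat.Partrec.Code e)
      (Nat.pair x (Nat.pair a b))).Dom := by
  unfold conf
  constructor
  · rintro ⟨t, ht⟩
    obtain ⟨y, hy⟩ := Option.isSome_iff_exists.1 ht
    exact Part.dom_iff_mem.2 ⟨y, Nat.Partrec.Code.evaln_sound hy⟩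
  · intro h
    obtain ⟨y, hy⟩ := Part.dom_iff_mem.1 h
    obtain ⟨t, ht⟩ := Nat.Partrec.Code.evaln_complete.1 hy
    exact ⟨t, Option.isSome_iff_exists.2 ⟨y, ht⟩⟩

/-- The sets `U e` are all the `Σ⁰₃` sets (not used in the proof of `result`). -/
theorem U_universal {R : ℕ × ℕ × ℕ × ℕ → Bool} (hR : Computable R) :
    ∃ e, U e = {x | ∃ a, ∀ b, ∃ d, R (x, a, b, d) = true} := by
  obtain ⟨e, he⟩ := exists_index hR
  refine ⟨e, Set.ext fun x => ?_⟩
  unfold U
  simp only [Set.mem_ofPred_eq]
  refine exists_congr fun a => forall_congr' fun b => ?_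
  rw [← conf_iff, he]

theorem log_eq_lg {x : ℕ} (hx : x ≠ 0) : Nat.log 2 x = lg x :=
  (lg_eq (Nat.pow_log_le_self 2 hx) (Nat.lt_pow_succ_log_self (by norm_num) x)).symm

/-- There is a primitive recursive colouring `c` of the natural numbers such that for every
infinite set `S` and all `e`, `i`: if the `e`-th `Σ⁰₃` set is contained in `S` and its positive
elements have at least `4 ^ ((⟨e, i⟩ + 1) ^ 2)` different leading binary digits, then the colour
`i` occurs on the finite sums of `S`. -/
theorem result : ∃ c : ℕ → ℕ, Primrec c ∧ ∀ (S : Set ℕ) (e i : ℕ), S.Infinite → U e ⊆ S →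
    ((4 ^ ((Nat.pair e i + 1) ^ 2) : ℕ) : ℕ∞) ≤ (Nat.log 2 '' (U e \ {0})).encard →
    ∃ F : Finset ℕ, F.Nonempty ∧ (F : Set ℕ) ⊆ S ∧ c (∑ x ∈ F, x) = i := by
  refine ⟨col, primrec_col, fun S e i hS hU hcard => ?_⟩
  obtain ⟨D, hD, hDc⟩ := Set.exists_subset_encard_eq hcard
  have hfin : D.Finite := Set.finite_of_encard_eq_coe hDc
  lift D to Finset ℕ using hfin
  refine col_full hS hU (e := e) (fun x => ?_) i (D := D) ?_ ?_
  · unfold U
    simp only [Set.mem_ofPred_eq]
    exact exists_congr fun a => forall_congr' fun b => (conf_iff e x a b).symm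
  · intro y hy
    obtain ⟨x, hx, rfl⟩ := hD hy
    exact ⟨x, hx, (log_eq_lg hx.2).symm⟩
  · rw [Set.encard_coe_eq_coe_finsetCard] at hDc
    have h1 : D.card = 4 ^ ((Nat.pair e i + 1) ^ 2) := by exact_mod_cast hDc
    rw [h1, pow_two]
    rfl

end Pool.Agent.Results.MP_96c46d_lc.NoSigmaThreeSolution
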